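import Pool.Agent.helper1.SOL.SpecN

set_option autoImplicit false

namespace Pool.Agent.SOL

open Pool.Agent.helper54.SOG Finset

theorem RST_adj {n : ℕ} {S P : Set (Vec n)} (hPS : P ⊆ S)
    (hP : ∀ x ∈ P, ∀ y ∈ P, x - y ∈ S → x - y ∈ P) (v w : P) :
    (gph P).Adj v w ↔ v ≠ w ∧ ((v : Vec n) - w ∈ S ∨ (w : Vec n) - v ∈ S) := by
  unfold gph
  rw [SimpleGraph.fromRel_adj]
  constructor
  · rintro ⟨h1, h2 | h2⟩
    · exact ⟨h1, Or.inl (hPS h2)⟩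
    · exact ⟨h1, Or.inr (hPS h2)⟩
  · rintro ⟨h1, h2 | h2⟩
    · exact ⟨h1, Or.inl (hP _ v.2 _ w.2 h2)⟩
    · exact ⟨h1, Or.inr (hP _ w.2 _ v.2 h2)⟩

theorem RST (hSYA : SYA_stmt) : RST_stmt := by
  intro n m S P S' P' ψ hS hS' hPS hPS' hPn hPn' hiff hP hP'
  obtain ⟨hadj, -, -, -, -, -, hsurj, hinj⟩ := hSYA n m S S' ψ hS hS'
  have hmem : ∀ x ∈ P, up ψ x ∈ P' := fun x hx => (hiff x (hPS hx)).1 hx
  let e : P ≃ P' := Equiv.ofBijective (fun x => ⟨up ψ x, hmem x x.2⟩) (by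
    constructor
    · intro x y hxy
      exact Subtype.ext (hinj _ (hPS x.2) _ (hPS y.2) (congrArg Subtype.val hxy))
    · intro y
      obtain ⟨x, hx, hxy⟩ := hsurj y (hPS' y.2)
      exact ⟨⟨x, (hiff x hx).2 (by rw [hxy]; exact y.2)⟩, Subtype.ext hxy⟩)
  have he : ∀ x : P, ((e x : P') : Vec m) = up ψ x := fun x => rfl
  refine ⟨⟨e, ?_⟩, fun x hx => ?_⟩
  · intro v w
    rw [RST_adj hPS' hP', RST_adj hPS hP, he, he, hadj _ (hPS v.2) _ (hPS w.2),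
      hadj _ (hPS w.2) _ (hPS v.2)]
    constructor
    · rintro ⟨h1, h2⟩
      exact ⟨fun h => h1 (by rw [h]), h2⟩
    · rintro ⟨h1, h2⟩
      exact ⟨fun h => h1 (e.injective h), h2⟩
  · rw [up_of_mem _ hx]
    rfl

end Pool.Agent.SOL
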