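import Pool.Agent.helper1.SOL.SpecN

set_option autoImplicit false

namespace Pool.Agent.SOL

open Pool.Agent.helper54.SOG Finset

abbrev SMB_Q : Type := ℤ × ℤ × ℤ × ℤ

abbrev SMB_T : Type := ℤ × ℤ × ℤ

def SMB_tv (q : SMB_Q) : Vec 4 := ![q.1, q.2.1, q.2.2.1, q.2.2.2]

def SMB_tt (q : SMB_T) : Vec 3 := ![q.1, q.2.1, q.2.2]

def SMB_q (x : Vec 4) : SMB_Q := (x 0, x 1, x 2, x 3)

def SMB_t (x : Vec 3) : SMB_T := (x 0, x 1, x 2)

/-- membership test, dimension 4 -/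
def SMB_is (q : SMB_Q) : Bool :=
  decide (q.1.natAbs ≤ 2 ∧ q.2.1.natAbs ≤ 2 ∧ q.2.2.1.natAbs ≤ 2 ∧ q.2.2.2.natAbs ≤ 2 ∧
    (q.1 * q.1 + q.2.1 * q.2.1 + q.2.2.1 * q.2.2.1 + q.2.2.2 * q.2.2.2 = 4 ∨
      q.1 * q.1 + q.2.1 * q.2.1 + q.2.2.1 * q.2.2.1 + q.2.2.2 * q.2.2.2 = 3) ∧
    q.1.natAbs + q.2.1.natAbs + q.2.2.1.natAbs + q.2.2.2.natAbs ≤ 4)

/-- membership test, dimension 3 -/
def SMB_is3 (q : SMB_T) : Bool :=
  decide (q.1.natAbs ≤ 2 ∧ q.2.1.natAbs ≤ 2 ∧ q.2.2.natAbs ≤ 2 ∧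
    (q.1 * q.1 + q.2.1 * q.2.1 + q.2.2 * q.2.2 = 4 ∨
      q.1 * q.1 + q.2.1 * q.2.1 + q.2.2 * q.2.2 = 3) ∧
    q.1.natAbs + q.2.1.natAbs + q.2.2.natAbs ≤ 3)

def SMB_L : List SMB_Q :=
  [(-2, 0, 0, 0), (-1, -1, -1, -1), (-1, -1, -1, 0), (-1, -1, -1, 1), (-1, -1, 0, -1), (-1, -1, 0, 1), (-1, -1, 1, -1), (-1, -1, 1, 0), (-1, -1, 1, 1), (-1, 0, -1, -1), (-1, 0, -1, 1), (-1, 0, 1, -1), (-1, 0, 1, 1), (-1, 1, -1, -1), (-1, 1, -1, 0), (-1, 1, -1, 1), (-1, 1, 0, -1), (-1, 1, 0, 1), (-1, 1, 1, -1), (-1, 1, 1, 0), (-1, 1, 1, 1), (0, -2, 0, 0), (0, -1, -1, -1), (0, -1, -1, 1), (0, -1, 1, -1), (0, -1, 1, 1), (0, 0, -2, 0), (0, 0, 0, -2), (0, 0, 0, 2), (0, 0, 2, 0), (0, 1, -1, -1), (0, 1, -1, 1), (0, 1, 1, -1), (0, 1, 1, 1), (0, 2, 0, 0), (1, -1, -1, -1), (1, -1, -1, 0), (1, -1, -1, 1), (1, -1, 0, -1), (1, -1, 0, 1), (1, -1, 1, -1), (1, -1, 1, 0), (1, -1, 1, 1),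 (1, 0, -1, -1), (1, 0, -1, 1), (1, 0, 1, -1), (1, 0, 1, 1), (1, 1, -1, -1), (1, 1, -1, 0), (1, 1, -1, 1), (1, 1, 0, -1), (1, 1, 0, 1), (1, 1, 1, -1), (1, 1, 1, 0), (1, 1, 1, 1), (2, 0, 0, 0)]

def SMB_L3 : List SMB_T :=
  [(-2, 0, 0), (-1, -1, -1), (-1, -1, 1), (-1, 1, -1), (-1, 1, 1), (0, -2, 0), (0, 0, -2), (0, 0, 2), (0, 2, 0), (1, -1, -1), (1, -1, 1), (1, 1, -1), (1, 1, 1), (2, 0, 0)]

def SMB_R : List ℤ := [-2, -1, 0, 1, 2]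

theorem SMB_mem (x : Vec 4) : x ∈ VB 4 2 ↔ SMB_is (SMB_q x) = true := by
  unfold VB SMB_is SMB_q dp l1
  simp only [Set.mem_setOf_eq, Fin.sum_univ_four, Fin.forall_fin_succ, decide_eq_true_eq]
  have h0 : ((x 0).natAbs : ℤ) = |x 0| := Int.natCast_natAbs _
  have h1 : ((x 1).natAbs : ℤ) = |x 1| := Int.natCast_natAbs _
  have h2 : ((x 2).natAbs : ℤ) = |x 2| := Int.natCast_natAbs _
  have h3 : ((x 3).natAbs : ℤ) = |x 3| := Int.natCast_natAbs _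
  have e1 : (Fin.succ 0 : Fin 4) = 1 := rfl
  have e2 : (Fin.succ (Fin.succ 0) : Fin 4) = 2 := rfl
  have e3 : (Fin.succ (Fin.succ (Fin.succ 0)) : Fin 4) = 3 := rfl
  rw [e1, e2, e3]
  generalize x 0 * x 0 + x 1 * x 1 + x 2 * x 2 + x 3 * x 3 = N
  constructor
  · rintro ⟨⟨a, b, c, d, -⟩, e, f⟩
    refine ⟨by omega, by omega, by omega, by omega, ?_, ?_⟩
    · push_cast at e; omega
    · push_cast at f; omega
  · rintro ⟨a, b, c, d, e, f⟩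
    refine ⟨⟨by omega, by omega, by omega, by omega, fun i => i.elim0⟩, ?_, ?_⟩
    · push_cast; omega
    · push_cast; omega

theorem SMB_mem3 (x : Vec 3) : x ∈ VB 3 2 ↔ SMB_is3 (SMB_t x) = true := by
  unfold VB SMB_is3 SMB_t dp l1
  simp only [Set.mem_setOf_eq, Fin.sum_univ_three, Fin.forall_fin_succ, decide_eq_true_eq]
  have h0 : ((x 0).natAbs : ℤ) = |x 0| := Int.natCast_natAbs _
  have h1 : ((x 1).natAbs : ℤ) = |x 1| := Int.natCast_natAbs _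
  have h2 : ((x 2).natAbs : ℤ) = |x 2| := Int.natCast_natAbs _
  have e1 : (Fin.succ 0 : Fin 3) = 1 := rfl
  have e2 : (Fin.succ (Fin.succ 0) : Fin 3) = 2 := rfl
  rw [e1, e2]
  generalize x 0 * x 0 + x 1 * x 1 + x 2 * x 2 = N
  constructor
  · rintro ⟨⟨a, b, c, -⟩, e, f⟩
    refine ⟨by omega, by omega, by omega, ?_, ?_⟩
    · push_cast at e; omega
    · push_cast at f; omega
  · rintro ⟨a, b, c, e, f⟩
    refine ⟨⟨by omega, by omega, by omega, fun i => i.elim0⟩, ?_, ?_⟩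
    · push_cast; omega
    · push_cast; omega

theorem SMB_R_mem {a : ℤ} (h : a.natAbs ≤ 2) : a ∈ SMB_R := by
  have h1 : a = -2 ∨ a = -1 ∨ a = 0 ∨ a = 1 ∨ a = 2 := by omega
  unfold SMB_R
  rcases h1 with rfl | rfl | rfl | rfl | rfl <;> decide

theorem SMB_list0 : ∀ a ∈ SMB_R, ∀ b ∈ SMB_R, ∀ c ∈ SMB_R, ∀ d ∈ SMB_R,
    SMB_is (a, b, c, d) = true → (a, b, c, d) ∈ SMB_L := by decide +kernel

theorem SMB_list03 : ∀ a ∈ SMB_R, ∀ b ∈ SMB_R, ∀ c ∈ SMB_R,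
    SMB_is3 (a, b, c) = true → (a, b, c) ∈ SMB_L3 := by decide +kernel

theorem SMB_list {q : SMB_Q} (h : SMB_is q = true) : q ∈ SMB_L := by
  obtain ⟨a, b, c, d⟩ := q
  have h1 := h
  unfold SMB_is at h1
  simp only [decide_eq_true_eq] at h1
  exact SMB_list0 a (SMB_R_mem h1.1) b (SMB_R_mem h1.2.1) c (SMB_R_mem h1.2.2.1) d
    (SMB_R_mem h1.2.2.2.1) h

theorem SMB_list3 {q : SMB_T} (h : SMB_is3 q = true) : q ∈ SMB_L3 := by
  obtain ⟨a, b, c⟩ := q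
  have h1 := h
  unfold SMB_is3 at h1
  simp only [decide_eq_true_eq] at h1
  exact SMB_list03 a (SMB_R_mem h1.1) b (SMB_R_mem h1.2.1) c (SMB_R_mem h1.2.2.1) h

theorem SMB_q_sub (x y : Vec 4) : SMB_q (x - y) = SMB_q x - SMB_q y := rfl

theorem SMB_t_sub (x y : Vec 3) : SMB_t (x - y) = SMB_t x - SMB_t y := rfl

theorem SMB_q_inj {x y : Vec 4} (h : SMB_q x = SMB_q y) : x = y := by
  unfold SMB_q at h
  simp only [Prod.mk.injEq] at h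
  obtain ⟨h0, h1, h2, h3⟩ := h
  funext i
  fin_cases i
  · exact h0
  · exact h1
  · exact h2
  · exact h3

theorem SMB_t_inj {x y : Vec 3} (h : SMB_t x = SMB_t y) : x = y := by
  unfold SMB_t at h
  simp only [Prod.mk.injEq] at h
  obtain ⟨h0, h1, h2⟩ := h
  funext i
  fin_cases i
  · exact h0
  · exact h1
  · exact h2

theorem SMB_q_tv (q : SMB_Q) : SMB_q (SMB_tv q) = q := rfl

theorem SMB_t_tt (q : SMB_T) : SMB_t (SMB_tt q) = q := rfl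

theorem SMB_tv_q (x : Vec 4) : SMB_tv (SMB_q x) = x := SMB_q_inj (SMB_q_tv _)

theorem SMB_tt_t (x : Vec 3) : SMB_tt (SMB_t x) = x := SMB_t_inj (SMB_t_tt _)

/-- candidates for the third vertex -/
def SMB_cand (x y : SMB_Q) : List SMB_Q :=
  [y - x, y - x + (1, 0, 0, 0), y - x + (0, 1, 0, 0), y - x + (0, 0, 1, 0), y - x + (0, 0, 0, 1)]

theorem SMB_check : ∀ x ∈ SMB_L, ∀ y ∈ SMB_L, SMB_is (x - y) = true →
    ∃ z ∈ SMB_cand x y, SMB_is z = true ∧ SMB_is (y - z) = true ∧ z ≠ x ∧ SMB_is (x - z) = false ∧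
      ∀ v ∈ SMB_L, SMB_is (x - v) = true → SMB_is (z - v) = true → v = y := by decide +kernel

theorem SMB_check3 : ∀ z ∈ SMB_L3, SMB_is3 ((2, 0, 0) - z) = true → z ≠ (1, 1, 1) →
    SMB_is3 ((1, 1, 1) - z) = false → ∃ v ∈ SMB_L3, SMB_is3 v = true ∧
      SMB_is3 ((1, 1, 1) - v) = true ∧ SMB_is3 (z - v) = true ∧ v ≠ (2, 0, 0) := by decide +kernel

theorem SMB_check4 : ∀ z ∈ SMB_L, SMB_is ((1, 1, 1, 1) - z) = true → z ≠ (2, 0, 0, 0) →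
    SMB_is ((2, 0, 0, 0) - z) = false → (∀ v ∈ SMB_L, SMB_is ((2, 0, 0, 0) - v) = true →
      SMB_is (z - v) = true → v = (1, 1, 1, 1)) → z = (1, 1, 1, 1) - (2, 0, 0, 0) := by
  decide +kernel

theorem SMB_allL : ∀ z ∈ SMB_L, SMB_is z = true := by decide +kernel

theorem SMB_NB (x : Vec 4) : NB (VB 4 2) x =
    SMB_tv '' ((SMB_L.toFinset.filter fun q => SMB_is (SMB_q x - q) = true : Finset SMB_Q) :
      Set SMB_Q) := by
  ext y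
  unfold NB
  simp only [Set.mem_setOf_eq, Set.mem_image, Finset.coe_filter, List.mem_toFinset]
  constructor
  · rintro ⟨h1, h2⟩
    rw [SMB_mem] at h1 h2
    rw [SMB_q_sub] at h2
    exact ⟨SMB_q y, ⟨SMB_list h1, h2⟩, SMB_tv_q y⟩
  · rintro ⟨q, ⟨h1, h2⟩, rfl⟩
    rw [SMB_mem, SMB_mem, SMB_q_sub, SMB_q_tv]
    exact ⟨SMB_allL q h1, h2⟩

theorem SMB_tv_inj : Function.Injective SMB_tv := by
  intro a b h
  have := congrArg SMB_q h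
  rwa [SMB_q_tv, SMB_q_tv] at this

theorem SMB_ncard (x : Vec 4) : (NB (VB 4 2) x).ncard =
    (SMB_L.toFinset.filter fun q => SMB_is (SMB_q x - q) = true).card := by
  rw [SMB_NB, Set.ncard_image_of_injective _ SMB_tv_inj, Set.ncard_coe_finset]

theorem SMB : SMB_stmt := by
  refine ⟨⟨?_, ?_, ?_, ?_⟩, ?_, ⟨?_, ?_, ?_⟩, ?_⟩
  · exact (SMB_mem3 _).2 (by decide +kernel)
  · exact (SMB_mem3 _).2 (by decide +kernel)
  · exact (SMB_mem3 _).2 (by decide +kernel)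
  · rw [Set.eq_empty_iff_forall_notMem]
    rintro z ⟨h1, h2, h3, h4, h5⟩
    rw [SMB_mem3] at h1 h2 h4
    rw [SMB_t_sub] at h2 h4
    obtain ⟨v, hv, hv1, hv2, hv3, hv4⟩ := SMB_check3 (SMB_t z) (SMB_list3 h1) h2
      (fun h => h3 (SMB_t_inj h)) (Bool.eq_false_iff.2 h4)
    apply hv4
    have h6 := h5 (SMB_tt v) ((SMB_mem3 _).2 hv1)
      ((SMB_mem3 _).2 (by rw [SMB_t_sub, SMB_t_tt]; exact hv2))
      ((SMB_mem3 _).2 (by rw [SMB_t_sub, SMB_t_tt]; exact hv3))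
    have h7 := congrArg SMB_t h6
    rw [SMB_t_tt] at h7
    exact h7
  · rintro x y ⟨h1, h2, h3, h4⟩
    rw [SMB_mem] at h1 h2 h3
    rw [SMB_q_sub] at h3
    obtain ⟨z, hz, hz1, hz2, hz3, hz4, hz5⟩ := SMB_check _ (SMB_list h1) _ (SMB_list h2) h3
    rw [Set.eq_empty_iff_forall_notMem] at h4
    apply h4 (SMB_tv z)
    refine ⟨(SMB_mem _).2 hz1, (SMB_mem _).2 ?_, ?_, ?_, ?_⟩
    · rw [SMB_q_sub, SMB_q_tv]; exact hz2
    · rintro rfl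
      exact hz3 (SMB_q_tv z).symm
    · rw [SMB_mem, SMB_q_sub, SMB_q_tv, hz4]
      exact Bool.false_ne_true
    · intro v hv hv1 hv2
      rw [SMB_mem] at hv hv1 hv2
      rw [SMB_q_sub] at hv1 hv2
      rw [SMB_q_tv] at hv2
      exact SMB_q_inj (hz5 _ (SMB_list hv) hv1 hv2)
  · exact (SMB_mem _).2 (by decide +kernel)
  · exact (SMB_mem _).2 (by decide +kernel)
  · rw [SMB_ncard, SMB_ncard]
    have e1 : (SMB_L.toFinset.filter fun q => SMB_is ((2, 0, 0, 0) - q) = true).card = 20 := by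
      decide +kernel
    have e2 : (SMB_L.toFinset.filter fun q => SMB_is ((1, 1, 1, 0) - q) = true).card = 6 := by
      decide +kernel
    intro h
    have h' : (SMB_L.toFinset.filter fun q => SMB_is ((2, 0, 0, 0) - q) = true).card =
      (SMB_L.toFinset.filter fun q => SMB_is ((1, 1, 1, 0) - q) = true).card := h
    rw [e1, e2] at h'
    omega
  · refine ⟨SMB_tv (2, 0, 0, 0), SMB_tv (1, 1, 1, 1), (SMB_mem _).2 (by decide +kernel),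
      (SMB_mem _).2 (by decide +kernel), (SMB_mem _).2 (by decide +kernel), ?_⟩
    rintro z ⟨h1, h2, h3, h4, h5⟩
    rw [SMB_mem] at h1 h2 h4
    rw [SMB_q_sub, SMB_q_tv] at h2 h4
    apply SMB_q_inj
    rw [SMB_q_sub, SMB_q_tv, SMB_q_tv]
    refine SMB_check4 _ (SMB_list h1) h2 ?_ (Bool.eq_false_iff.2 h4) ?_
    · intro h
      apply h3
      rw [← h, SMB_tv_q]
    · intro v hv hv1 hv2
      have h6 := h5 (SMB_tv v) ((SMB_mem _).2 (SMB_allL v hv))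
        ((SMB_mem _).2 (by rw [SMB_q_sub, SMB_q_tv, SMB_q_tv]; exact hv1))
        ((SMB_mem _).2 (by rw [SMB_q_sub, SMB_q_tv]; exact hv2))
      have h7 := congrArg SMB_q h6
      rw [SMB_q_tv, SMB_q_tv] at h7
      exact h7

end Pool.Agent.SOL
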